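import Pool.Agent.Helper10.RS.Goals

/-! # Project RS, packet FRAT -/

set_option autoImplicit false

namespace Pool.Agent.Helper57.RS

open Subgroup

universe u

/-- a finite cyclic group of order divisible by `l` has a surjection onto a group of order `l`,
whose kernel contains a given subgroup with index divisible by `l` -/
theorem cyc_quot {U : Type} [CommGroup U] [Finite U] [IsCyclic U] (A : Subgroup U) {l : ℕ}
    (h : l ∣ A.index) :
    ∃ B : Subgroup U, A ≤ B ∧ B.index = l := by
  have hc : Nat.card (U ⧸ A) = A.index := rfl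
  have : IsCyclic (U ⧸ A) := isCyclic_of_surjective (QuotientGroup.mk' A)
    (QuotientGroup.mk'_surjective A)
  obtain ⟨m, hm⟩ := h
  have hm0 : 0 < m := by
    rcases Nat.eq_zero_or_pos m with h0 | h0
    · rw [h0, mul_zero] at hm
      exact absurd hm (index_ne_zero_of_finite (H := A))
    · exact h0
  have h1 := IsCyclic.index_powMonoidHom_ker (U ⧸ A) m
  rw [hc, hm, Nat.gcd_eq_right (Dvd.intro_left l rfl), Nat.mul_div_cancel _ hm0] at h1
  refine ⟨(powMonoidHom m : U ⧸ A →* U ⧸ A).ker.comap (QuotientGroup.mk' A), ?_, ?_⟩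
  · intro a ha
    rw [mem_comap, QuotientGroup.mk'_apply, (QuotientGroup.eq_one_iff a).2 ha]
    exact one_mem _
  · rw [index_comap_of_surjective _ (QuotientGroup.mk'_surjective A)]
    exact h1

theorem p_frat : Pool.Agent.Helper10.RS.FRAT.{u} := by
  intro G _ _ r l hr hl hr2 hconj hidx X Y hX hY hYX hrY hrX
  classical
  have := Fact.mk hr
  have := Fact.mk hl
  obtain ⟨P⟩ : Nonempty (Sylow r X) := inferInstance
  set R : Subgroup G := (P : Subgroup X).map X.subtype with hR
  have hX2 : ¬ r ^ 2 ∣ Nat.card X := fun h => hr2 (h.trans (card_subgroup_dvd_card X))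
  have hRX : R ≤ X := map_subtype_le _
  have hcR : Nat.card R = r := by
    have h1 : Nat.card R = Nat.card (P : Subgroup X) :=
      (Nat.card_congr ((P : Subgroup X).equivMapOfInjective X.subtype X.subtype_injective).toEquiv).symm
    have h2 : Nat.card (P : Subgroup X) = r ^ (Nat.card X).factorization r := P.card_eq_multiplicity
    have h3 : (Nat.card X).factorization r = 1 := by
      have h4 : 1 ≤ (Nat.card X).factorization r :=
        (hr.dvd_iff_one_le_factorization Nat.card_pos.ne').1 hrX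
      have h5 : ¬ 2 ≤ (Nat.card X).factorization r := fun h =>
        hX2 ((hr.pow_dvd_iff_le_factorization Nat.card_pos.ne').2 h)
      omega
    rw [h1, h2, h3, pow_one]
  have hRY : R ⊓ Y = ⊥ := by
    refine (disjoint_of_coprime_natCard ?_).eq_bot
    rw [hcR]
    exact (Nat.Prime.coprime_iff_not_dvd hr).2 hrY
  have hRc : IsCyclic R := isCyclic_of_prime_card hcR
  set N : Subgroup G := normalizer (R : Set G) with hN
  have hfrat : N ⊔ X = ⊤ := P.normalizer_sup_eq_top
  set φ : N →* MulAut R := R.normalizerMonoidHom with hφ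
  have hφv : ∀ (n : N) (x : R), ((φ n x : R) : G) = (n : G) * x * (n : G)⁻¹ := fun _ _ => rfl
  -- a generator of `R`
  obtain ⟨x0, hx0⟩ := IsCyclic.exists_generator (α := R)
  have hx01 : x0 ≠ 1 := by
    intro h
    have h1 : Subgroup.zpowers x0 = ⊤ := by
      rw [eq_top_iff]
      intro y _
      exact hx0 y
    have h2 := orderOf_eq_card_of_zpowers_eq_top h1
    rw [h, orderOf_one, hcR] at h2
    exact hr.one_lt.ne h2
  have hφsurj : Function.Surjective φ := by
    intro α
    have hy1 : α x0 ≠ 1 := by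
      intro h
      apply hx01
      apply α.injective
      rw [h, map_one]
    obtain ⟨g, hg⟩ := hconj R hcR x0 x0.2 (α x0) (α x0).2 (fun h => hx01 (Subtype.ext h))
      (fun h => hy1 (Subtype.ext h))
    have hgR : R.map (MulAut.conj g).toMonoidHom ≤ R := by
      rintro _ ⟨x, hx, rfl⟩
      obtain ⟨i, hi⟩ := hx0 ⟨x, hx⟩
      have h1 : x = (x0 : G) ^ i := by
        have := congrArg Subtype.val hi
        simpa using this.symm
      have h2 : (MulAut.conj g).toMonoidHom x = ((α x0 : R) : G) ^ i := by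
        rw [h1, map_zpow]
        congr 1
      rw [h2]
      exact zpow_mem (α x0).2 i
    have hgR' : R.map (MulAut.conj g).toMonoidHom = R := by
      refine eq_of_le_of_card_ge hgR (le_of_eq ?_)
      exact Nat.card_congr (R.equivMapOfInjective _ (MulAut.conj g).injective).toEquiv
    have hgN : g ∈ N := by
      rw [hN, mem_normalizer_iff]
      intro h
      constructor
      · intro hh
        exact hgR (mem_map_of_mem _ hh)
      · intro hh
        have h3 : g * h * g⁻¹ ∈ R.map (MulAut.conj g).toMonoidHom := by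
          rw [hgR']
          exact hh
        obtain ⟨y, hy, hyh⟩ := h3
        have h4 : y = h := (MulAut.conj g).injective hyh
        rw [← h4]
        exact hy
    refine ⟨⟨g, hgN⟩, ?_⟩
    ext y
    obtain ⟨i, rfl⟩ := hx0 y
    simp only [map_zpow]
    have h5 : φ ⟨g, hgN⟩ x0 = α x0 := Subtype.ext hg
    rw [h5]
  -- the action of `N ∩ X`
  set f : N →* G ⧸ X := (QuotientGroup.mk' X).comp N.subtype with hf
  have hfsurj : Function.Surjective f := by
    intro q
    obtain ⟨g, rfl⟩ := QuotientGroup.mk'_surjective X q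
    have hg : g ∈ N ⊔ X := by
      rw [hfrat]
      exact mem_top g
    obtain ⟨n, hn, x, hx, rfl⟩ := mem_sup_of_normal_right.1 hg
    refine ⟨⟨n, hn⟩, ?_⟩
    rw [hf, MonoidHom.comp_apply, map_mul]
    have h1 : QuotientGroup.mk' X x = 1 := (QuotientGroup.eq_one_iff x).2 hx
    rw [h1, mul_one]
    rfl
  -- the automorphism group
  let e : MulAut R ≃* (ZMod (Nat.card R))ˣ := IsCyclic.mulAutMulEquiv R
  have : Fact (Nat.card R).Prime := ⟨hcR ▸ hr⟩
  have hcU : Nat.card (ZMod (Nat.card R))ˣ = r - 1 := by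
    rw [← Nat.card_congr e.toEquiv, IsCyclic.card_mulAut, hcR, Nat.totient_prime hr]
  set ψ : N →* (ZMod (Nat.card R))ˣ := e.toMonoidHom.comp φ with hψ
  have hψsurj : Function.Surjective ψ := e.surjective.comp hφsurj
  set A : Subgroup (ZMod (Nat.card R))ˣ := f.ker.map ψ with hA
  have key : ∀ a : ℕ, l ^ a ∣ r - 1 → l ^ a ∣ Nat.card A := by
    intro a ha
    by_contra hcon
    have h1 : Nat.card A * A.index = r - 1 := by rw [A.card_mul_index, hcU]
    have h2 : l ∣ A.index := by
      by_contra h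
      apply hcon
      have h3 : (l ^ a).Coprime A.index := Nat.Coprime.pow_left a
        ((Nat.Prime.coprime_iff_not_dvd hl).2 h)
      rw [← h1] at ha
      exact h3.dvd_of_dvd_mul_right ha
    obtain ⟨B, hAB, hB⟩ := cyc_quot A h2
    set χ : N →* (ZMod (Nat.card R))ˣ ⧸ B := (QuotientGroup.mk' B).comp ψ with hχ
    have hχsurj : Function.Surjective χ := (QuotientGroup.mk'_surjective B).comp hψsurj
    have hker : f.ker ≤ χ.ker := by
      intro n hn
      rw [MonoidHom.mem_ker, hχ, MonoidHom.comp_apply, QuotientGroup.mk'_apply]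
      exact (QuotientGroup.eq_one_iff _).2 (hAB (mem_map_of_mem ψ hn))
    set θ : G ⧸ X →* (ZMod (Nat.card R))ˣ ⧸ B := f.liftOfSurjective hfsurj ⟨χ, hker⟩ with hθ
    have hθf : ∀ n : N, θ (f n) = χ n := fun n =>
      f.liftOfRightInverse_comp_apply _ (Function.rightInverse_surjInv hfsurj) ⟨χ, hker⟩ n
    have hθsurj : Function.Surjective θ := by
      intro u
      obtain ⟨n, rfl⟩ := hχsurj u
      exact ⟨f n, hθf n⟩
    have hsurj : Function.Surjective (θ.comp (QuotientGroup.mk' X)) :=
      hθsurj.comp (QuotientGroup.mk'_surjective X)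
    refine hidx (θ.comp (QuotientGroup.mk' X)).ker inferInstance ?_
    rw [index_ker, MonoidHom.range_eq_top_of_surjective _ hsurj, card_top]
    exact hB
  have hact : ∀ n : N, (∀ x ∈ R, (n : G) * x * (n : G)⁻¹ * x⁻¹ ∈ Y) → ψ n = 1 := by
    intro n hn
    have h1 : φ n = 1 := by
      ext x
      have h2 : (n : G) * x * (n : G)⁻¹ * (x : G)⁻¹ ∈ R ⊓ Y := by
        refine ⟨?_, hn x x.2⟩
        have h3 : (n : G) * x * (n : G)⁻¹ ∈ R := (φ n x).2
        exact R.mul_mem h3 (R.inv_mem x.2)
      rw [hRY, mem_bot] at h2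
      rw [hφv, MulAut.one_apply]
      exact mul_inv_eq_one.1 h2
    rw [hψ, MonoidHom.comp_apply, h1, map_one]
  have hkerX : ∀ n : N, n ∈ f.ker → (n : G) ∈ X := by
    intro n hn
    rw [MonoidHom.mem_ker] at hn
    exact (QuotientGroup.eq_one_iff (n : G)).1 hn
  refine ⟨fun a ha => (key a ha).trans ?_, fun hl1 => ?_⟩
  · let j : f.ker →* X := (N.subtype.comp f.ker.subtype).codRestrict X (fun n => hkerX n n.2)
    set g1 : f.ker →* ↥X ⧸ Y.subgroupOf X := (QuotientGroup.mk' (Y.subgroupOf X)).comp j with hg1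
    set ψ1 : f.ker →* (ZMod (Nat.card R))ˣ := ψ.comp f.ker.subtype with hψ1
    have h1 : g1.ker ≤ ψ1.ker := by
      intro n hn
      rw [MonoidHom.mem_ker] at hn
      have hnY : ((n : N) : G) ∈ Y := by
        have h2 := (QuotientGroup.eq_one_iff (j n)).1 hn
        exact mem_subgroupOf.1 h2
      rw [MonoidHom.mem_ker]
      refine hact n fun x _ => ?_
      have h3 : x * ((n : N) : G)⁻¹ * x⁻¹ ∈ Y := hY.conj_mem _ (inv_mem hnY) x
      have h4 := mul_mem hnY h3
      have h5 : ((n : N) : G) * (x * ((n : N) : G)⁻¹ * x⁻¹) =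
          ((n : N) : G) * x * ((n : N) : G)⁻¹ * x⁻¹ := by group
      rwa [h5] at h4
    have h2 : ψ1.range = A := by
      rw [hψ1, hA, MonoidHom.range_comp, range_subtype]
    calc Nat.card A = ψ1.ker.index := by rw [index_ker, h2]
      _ ∣ g1.ker.index := index_dvd_of_le h1
      _ = Nat.card g1.range := index_ker g1
      _ ∣ Nat.card (↥X ⧸ Y.subgroupOf X) := card_subgroup_dvd_card _
  · by_contra hcon
    push Not at hcon
    have h1 : A = ⊥ := by
      rw [eq_bot_iff]
      rintro _ ⟨n, hn, rfl⟩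
      rw [mem_bot]
      refine hact n fun x hx => ?_
      have hnX := hkerX n hn
      have h2 := hcon (QuotientGroup.mk (⟨n, hnX⟩ : X)) (QuotientGroup.mk (⟨x, hRX hx⟩ : X))
      rw [← QuotientGroup.mk_mul, ← QuotientGroup.mk_mul, QuotientGroup.eq] at h2
      have h3 := mem_subgroupOf.1 h2
      simp only [mul_inv_rev, Subgroup.coe_mul, Subgroup.coe_inv] at h3
      -- `x⁻¹ n⁻¹ x n ∈ Y`
      have h4 := hY.conj_mem _ h3 (x * (n : G))
      have h5 := inv_mem h4
      have h6 : ((n : G) * x * (n : G)⁻¹ * x⁻¹) =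
        (x * (n : G) * (x⁻¹ * (n : G)⁻¹ * (x * (n : G))) * (x * (n : G))⁻¹)⁻¹ := by group
      rw [h6]
      exact h5
    have h2 := key 1 (by rwa [pow_one])
    rw [h1, card_bot, pow_one] at h2
    exact hl.one_lt.ne' (Nat.dvd_one.1 h2)

end Pool.Agent.Helper57.RS
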