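import Pool.Agent.Helper10.RS.Goals

/-! # Project RS, packet SIMP: a simple chief factor of order divisible by `r` -/

set_option autoImplicit false

namespace Pool.Agent.Helper57.RS

open Subgroup

universe u

/-- the order of the join of two normal subgroups of order prime to `r` -/
theorem not_dvd_sup {H : Type u} [Group H] [Finite H] {r : ℕ} (hr : r.Prime) (A B : Subgroup H)
    [A.Normal] [B.Normal] (hA : ¬ r ∣ Nat.card A) (hB : ¬ r ∣ Nat.card B) :
    ¬ r ∣ Nat.card ↥(A ⊔ B) := by
  intro h
  have h1 : A.relIndex (A ⊔ B) = A.relIndex B := relIndex_sup_left B A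
  have h2 : (⊥ : Subgroup H).relIndex A * A.relIndex (A ⊔ B) = (⊥ : Subgroup H).relIndex (A ⊔ B) :=
    relIndex_mul_relIndex ⊥ A (A ⊔ B) bot_le le_sup_left
  rw [relIndex_bot_left, relIndex_bot_left, h1] at h2
  rw [← h2] at h
  rcases (Nat.Prime.dvd_mul hr).1 h with h3 | h3
  · exact hA h3
  · exact hB (h3.trans (relIndex_dvd_card A B))

/-- a normal subgroup of order divisible by `r` contains all elements of order `r` if
`r ^ 2` does not divide the order of the group -/
theorem mem_of_pow {H : Type u} [Group H] [Finite H] {r : ℕ} (hr : r.Prime)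
    (h2 : ¬ r ^ 2 ∣ Nat.card H) (L : Subgroup H) [L.Normal] (hL : r ∣ Nat.card L) {x : H}
    (hx : x ^ r = 1) : x ∈ L := by
  have h3 : ¬ r ∣ L.index := by
    intro h
    apply h2
    rw [← L.card_mul_index, pow_two]
    exact mul_dvd_mul hL h
  have h4 : (x : H ⧸ L) ^ r = 1 := by
    rw [← QuotientGroup.mk_pow, hx, QuotientGroup.mk_one]
  have h5 : (x : H ⧸ L) ^ L.index = 1 := by
    rw [Subgroup.index]
    exact pow_card_eq_one'
  have h6 : orderOf (x : H ⧸ L) ∣ 1 := by
    have h7 := Nat.dvd_gcd (orderOf_dvd_of_pow_eq_one h4) (orderOf_dvd_of_pow_eq_one h5)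
    rwa [Nat.Coprime.gcd_eq_one ((Nat.Prime.coprime_iff_not_dvd hr).2 h3)] at h7
  rw [Nat.dvd_one, orderOf_eq_one_iff] at h6
  exact (QuotientGroup.eq_one_iff x).1 h6

theorem card_map_sub {H K : Type u} [Group H] [Group K] (f : H →* K)
    (hf : Function.Injective f) (A : Subgroup H) : Nat.card (A.map f) = Nat.card A :=
  (Nat.card_congr (A.equivMapOfInjective f hf).toEquiv).symm

theorem p_simp : Pool.Agent.Helper10.RS.SIMP.{u} := by
  intro G _ _ r hr hrG hr2
  classical
  have := Fact.mk hr
  -- the subgroup `Y`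
  obtain ⟨Y, hYs, hYmax⟩ := Set.exists_max_image
    {Y : Subgroup G | Y.Normal ∧ ¬ r ∣ Nat.card Y} (fun Y => Nat.card Y) (Set.toFinite _)
    ⟨⊥, inferInstance, by
      rw [Subgroup.card_bot]
      exact hr.one_lt.not_ge ∘ Nat.le_of_dvd one_pos⟩
  obtain ⟨hYn, hYr⟩ := hYs
  have hYlt : Y < ⊤ := by
    rw [lt_top_iff_ne_top]
    intro h
    apply hYr
    rw [h, Subgroup.card_top]
    exact hrG
  -- the subgroup `X`
  obtain ⟨X, hXs, hXmin⟩ := Set.exists_min_image
    {X : Subgroup G | X.Normal ∧ Y < X} (fun X => Nat.card X) (Set.toFinite _)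
    ⟨⊤, inferInstance, hYlt⟩
  obtain ⟨hXn, hYX⟩ := hXs
  have hXr : r ∣ Nat.card X := by
    by_contra h
    have h1 := hYmax X ⟨hXn, h⟩
    exact hYX.ne (eq_of_le_of_card_ge hYX.le h1)
  have hX2 : ¬ r ^ 2 ∣ Nat.card X := fun h => hr2 (h.trans (card_subgroup_dvd_card X))
  have hcY : Nat.card (Y.subgroupOf X) = Nat.card Y :=
    Nat.card_congr (subgroupOfEquivOfLe hYX.le).toEquiv
  -- normal subgroups of `X` of order prime to `r`
  have hsmall : ∀ L : Subgroup X, L.Normal → ¬ r ∣ Nat.card L → L ≤ Y.subgroupOf X := by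
    obtain ⟨L0, hL0s, hL0max⟩ := Set.exists_max_image
      {L : Subgroup X | L.Normal ∧ ¬ r ∣ Nat.card L} (fun L => Nat.card L) (Set.toFinite _)
      ⟨⊥, inferInstance, by
        rw [Subgroup.card_bot]
        exact hr.one_lt.not_ge ∘ Nat.le_of_dvd one_pos⟩
    obtain ⟨hL0n, hL0r⟩ := hL0s
    have hbig : ∀ L : Subgroup X, L.Normal → ¬ r ∣ Nat.card L → L ≤ L0 := by
      intro L hLn hLr
      have h1 := hL0max (L0 ⊔ L) ⟨inferInstance, not_dvd_sup hr L0 L hL0r hLr⟩
      have h2 : L0 = L0 ⊔ L := eq_of_le_of_card_ge le_sup_left h1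
      rw [h2]
      exact le_sup_right
    have hchar : L0.Characteristic := by
      rw [characteristic_iff_map_le]
      intro φ
      refine hbig _ (hL0n.map _ φ.surjective) ?_
      rw [card_map_sub _ φ.injective]
      exact hL0r
    have hMn : (L0.map X.subtype).Normal := inferInstance
    have hMr : ¬ r ∣ Nat.card (L0.map X.subtype) := by
      rw [card_map_sub _ X.subtype_injective]
      exact hL0r
    have h3 : L0.map X.subtype ≤ Y := by
      have h1 := hYmax (Y ⊔ L0.map X.subtype) ⟨inferInstance, not_dvd_sup hr _ _ hYr hMr⟩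
      have h2 : Y = Y ⊔ L0.map X.subtype := eq_of_le_of_card_ge le_sup_left h1
      rw [h2]
      exact le_sup_right
    intro L hLn hLr
    refine (hbig L hLn hLr).trans fun x hx => ?_
    rw [mem_subgroupOf]
    exact h3 (mem_map_of_mem X.subtype hx)
  -- normal subgroups of `X` of order divisible by `r`
  have hlarge : ∀ L : Subgroup X, L.Normal → r ∣ Nat.card L → Y.subgroupOf X ≤ L → L = ⊤ := by
    set O : Subgroup X := closure {x : X | x ^ r = 1} with hO
    have hchar : O.Characteristic := by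
      rw [characteristic_iff_map_le]
      intro φ
      rw [hO, MonoidHom.map_closure]
      refine closure_mono ?_
      rintro _ ⟨x, hx, rfl⟩
      simp only [Set.mem_ofPred_eq] at hx ⊢
      rw [← map_pow, hx, map_one]
    have hOn : (O.map X.subtype).Normal := inferInstance
    have h1 : Y < Y ⊔ O.map X.subtype := by
      refine lt_of_le_of_ne le_sup_left fun h => ?_
      obtain ⟨x, hx⟩ := exists_prime_orderOf_dvd_card' (G := X) r hXr
      have hxO : (x : G) ∈ Y := by
        rw [h]
        refine (le_sup_right : O.map X.subtype ≤ _) (mem_map_of_mem X.subtype ?_)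
        refine subset_closure ?_
        simp only [Set.mem_ofPred_eq]
        rw [← hx, pow_orderOf_eq_one]
      apply hYr
      have h5 : orderOf (⟨(x : G), hxO⟩ : Y) = r := by
        rw [← hx, ← Subgroup.orderOf_coe, ← Subgroup.orderOf_coe]
      rw [← h5]
      exact orderOf_dvd_natCard _
    have h2 : Y ⊔ O.map X.subtype ≤ X := sup_le hYX.le (map_subtype_le O)
    have h3 : Y ⊔ O.map X.subtype = X :=
      eq_of_le_of_card_ge h2 (hXmin _ ⟨inferInstance, h1⟩)
    intro L hLn hLr hYL
    have h4 : X ≤ L.map X.subtype := by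
      refine h3.ge.trans (sup_le ?_ ?_)
      · intro y hy
        exact ⟨⟨y, hYX.le hy⟩, hYL (mem_subgroupOf.2 hy), rfl⟩
      · refine map_mono ?_
        rw [hO, closure_le]
        intro x hx
        exact mem_of_pow hr hX2 L hLr hx
    rw [eq_top_iff]
    intro x _
    obtain ⟨y, hy, hyx⟩ := h4 x.2
    have h5 : y = x := Subtype.ext hyx
    rw [← h5]
    exact hy
  refine ⟨X, Y, hXn, hYn, hYX.le, hYr, ?_, ?_⟩
  · have hdvd : r ∣ Nat.card (↥X ⧸ Y.subgroupOf X) := by
      have h1 := (Y.subgroupOf X).card_mul_index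
      rw [← h1] at hXr
      rcases (Nat.Prime.dvd_mul hr).1 hXr with h2 | h2
      · rw [hcY] at h2
        exact absurd h2 hYr
      · exact h2
    have : Nontrivial (↥X ⧸ Y.subgroupOf X) := by
      rw [← Finite.one_lt_card_iff_nontrivial]
      exact lt_of_lt_of_le hr.one_lt (Nat.le_of_dvd Nat.card_pos hdvd)
    refine ⟨fun H hH => ?_⟩
    have hc : (H.comap (QuotientGroup.mk' (Y.subgroupOf X))).Normal := hH.comap _
    have hle : Y.subgroupOf X ≤ H.comap (QuotientGroup.mk' (Y.subgroupOf X)) := by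
      intro y hy
      rw [mem_comap, QuotientGroup.mk'_apply, (QuotientGroup.eq_one_iff y).2 hy]
      exact one_mem H
    have hsurj : Function.Surjective (QuotientGroup.mk' (Y.subgroupOf X)) :=
      QuotientGroup.mk'_surjective _
    by_cases h : r ∣ Nat.card (H.comap (QuotientGroup.mk' (Y.subgroupOf X)))
    · right
      have h1 := hlarge _ hc h hle
      rw [eq_top_iff]
      intro q _
      obtain ⟨x, rfl⟩ := hsurj q
      have h2 : x ∈ H.comap (QuotientGroup.mk' (Y.subgroupOf X)) := by
        rw [h1]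
        exact mem_top x
      exact h2
    · left
      have h1 := hsmall _ hc h
      rw [eq_bot_iff]
      intro q hq
      obtain ⟨x, rfl⟩ := hsurj q
      have h2 : x ∈ Y.subgroupOf X := h1 hq
      rw [mem_bot, QuotientGroup.mk'_apply]
      exact (QuotientGroup.eq_one_iff x).2 h2
  · have h1 := (Y.subgroupOf X).card_mul_index
    rw [← h1] at hXr
    rcases (Nat.Prime.dvd_mul hr).1 hXr with h2 | h2
    · rw [hcY] at h2
      exact absurd h2 hYr
    · exact h2

end Pool.Agent.Helper57.RS
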