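import Pool.Agent.Helper36.RS.Goals

/-! # Project RF, packet ELL: elliptic energy estimate -/

namespace Pool.Agent.Helper57.RS

open Set Filter Topology MeasureTheory Pool.Agent.Helper47.RF Pool.Agent.Helper36.RS
open scoped ContDiff

/-- Young's inequality -/
theorem young (t : ℝ) (ht : 0 < t) (x y : XS) :
    |ip x y| ≤ t / 2 * ip x x + 1 / (2 * t) * ip y y := by
  have h1 : ∀ s : ℝ, s ^ 2 = 1 → -(s * ip x y) ≤ t / 2 * ip x x + 1 / (2 * t) * ip y y := by
    intro s hs
    have h2 := ip_nonneg (t • x + s • y)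
    have h3 : ip (t • x + s • y) (t • x + s • y) =
        t ^ 2 * ip x x + 2 * t * (s * ip x y) + s ^ 2 * ip y y := by
      simp only [map_add, LinearMap.add_apply, map_smul, LinearMap.smul_apply, smul_eq_mul]
      rw [ip_comm y x]
      ring
    rw [h3, hs] at h2
    have h4 : t / 2 * ip x x + 1 / (2 * t) * ip y y + s * ip x y =
        (t ^ 2 * ip x x + 2 * t * (s * ip x y) + 1 * ip y y) / (2 * t) := by
      field_simp
      ring
    have h5 : 0 ≤ (t ^ 2 * ip x x + 2 * t * (s * ip x y) + 1 * ip y y) / (2 * t) := by positivity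
    linarith
  rw [abs_le]
  constructor
  · have := h1 1 (by norm_num)
    linarith
  · have := h1 (-1) (by norm_num)
    linarith

theorem ip_eq_one (u v : XS) : ip u v = ip 1 (u * v) := by
  change integ (u * v).1 = integ (1 * (u * v)).1
  rw [one_mul]

theorem ip_one_mono {F G : XS} (h : ∀ x ≠ 0, F.1 x ≤ G.1 x) : ip 1 F ≤ ip 1 G := by
  change integ (1 * F).1 ≤ integ (1 * G).1
  rw [one_mul, one_mul, integ, integ]
  have h1 : ∫ x in Metric.ball (0 : HH) 1, F.1 x ≤ ∫ x in Metric.ball (0 : HH) 1, G.1 x := by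
    apply integral_mono_ae (integrable_val F) (integrable_val G)
    have h2 : ∀ᵐ x ∂(volume.restrict (Metric.ball (0 : HH) 1)), x ≠ 0 := by
      rw [ae_iff]
      simp only [ne_eq, not_not]
      exact measure_singleton (0 : HH)
    filter_upwards [h2] with x hx
    exact h x hx
  linarith

theorem Wle_succ (m : ℕ) : Wle (m + 1) =
    insert [] ((Finset.univ ×ˢ Wle m).image (fun p : Fin 3 × List (Fin 3) => p.1 :: p.2)) := by
  ext w
  rw [mem_Wle, Finset.mem_insert, Finset.mem_image]
  constructor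
  · intro h
    cases w with
    | nil => exact Or.inl rfl
    | cons i w =>
      right
      refine ⟨(i, w), ?_, rfl⟩
      rw [Finset.mem_product, mem_Wle]
      refine ⟨Finset.mem_univ _, ?_⟩
      simp only [List.length_cons] at h
      show w.length ≤ m
      omega
  · rintro (h | ⟨⟨i, w'⟩, h, rfl⟩)
    · rw [h]
      simp
    · rw [Finset.mem_product, mem_Wle] at h
      simp only [List.length_cons]
      have := h.2
      simp only at this
      omega

theorem sn_succ (m : ℕ) (v : XS) : sn (m + 1) v =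
    ip v v + ∑ w ∈ Wle m, ∑ i, ip (Ed i (Wd w v)) (Ed i (Wd w v)) := by
  rw [sn_eq, Wle_succ, Finset.sum_insert]
  · rw [Finset.sum_image]
    · rw [Finset.sum_product_right]
      rfl
    · rintro ⟨i, w⟩ _ ⟨j, w'⟩ _ h
      simp only [List.cons.injEq] at h
      rw [h.1, h.2]
  · intro h
    rw [Finset.mem_image] at h
    obtain ⟨p, -, hp⟩ := h
    exact List.cons_ne_nil _ _ hp

theorem ip_self_le_sn (m : ℕ) (v : XS) : ip v v ≤ sn m v := by
  have := ip_Wd_le (m := m) (w := []) (by simp) v
  simpa using this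

theorem ell : G_ELL := by
  intro hSOB hPRS m hm lam hlam L
  obtain ⟨-, h2, h3, h4, h5, -, -⟩ := hPRS hSOB
  obtain ⟨Cb, hCb⟩ := h2 0
  obtain ⟨Cc, hCc⟩ := h3 m hm
  obtain ⟨Cd, hCd⟩ := h4 m
  obtain ⟨Ch, hCh⟩ := h5 m (by omega)
  -- nonnegative constants
  set B := |Cb| with hB
  set K := |Cc| with hK
  set D := |Cd| with hD
  set H := |Ch| with hH
  set M := |L| with hM
  have hB0 : 0 ≤ B := abs_nonneg _
  have hK0 : 0 ≤ K := abs_nonneg _
  have hD0 : 0 ≤ D := abs_nonneg _
  have hH0 : 0 ≤ H := abs_nonneg _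
  have hM0 : 0 ≤ M := abs_nonneg _
  set Nw : ℝ := ((Wle m).card : ℝ) with hNw
  have hNw0 : 0 ≤ Nw := by positivity
  set Q : ℝ := 18 * Nw * D * H * M + 1 with hQ
  have hQ0 : 0 < Q := by positivity
  set t : ℝ := lam / (4 * Q) with ht
  have ht0 : 0 < t := by positivity
  set R : ℝ := 2 * (B * M * D + K * M) with hR
  have hR0 : 0 ≤ R := by positivity
  set C : ℝ := 3 * lam / 4 + Nw * (27 / lam * R) + 3 / (2 * t) with hC
  refine ⟨C, by positivity, fun a v ha hell => ?_⟩
  have hs0 := sn_nonneg m v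
  have hs1 := sn_nonneg (m + 1) v
  -- bound for each word
  have key : ∀ w ∈ Wle m, ip (Wd w v) (Wd w (∑ i, Ed i (∑ k, a i k * Ed k v))) ≤
      -(3 * lam / 4) * (∑ i, ip (Ed i (Wd w v)) (Ed i (Wd w v))) + 27 / lam * (R * sn m v) +
        3 / (2 * t) * ip (Wd w v) (Wd w v) + t / 2 * (36 * D * H * M * sn (m + 1) v) := by
    intro w hw
    have hwl : w.length ≤ m := mem_Wle.mp hw
    set u := Wd w v with hu
    set f : Fin 3 → XS := fun i => ∑ k, a i k * Ed k v with hf
    set Kf : Fin 3 → XS := fun i => Wd w (Ed i (f i)) - Ed i (Wd w (f i)) with hKf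
    set r : Fin 3 → Fin 3 → XS := fun i k => Wd w (a i k * Ed k v) - a i k * Ed k u with hr
    -- remainder bound
    have hrb : ∀ i k, ip (r i k) (r i k) ≤ R * sn m v := by
      intro i k
      have e1 : r i k = a i k * (Wd w (Ed k v) - Ed k u) +
          (Wd w (a i k * Ed k v) - a i k * Wd w (Ed k v)) := by
        simp only [hr]
        ring
      have b1 : sn 0 (a i k * (Wd w (Ed k v) - Ed k u)) ≤ B * (M * (D * sn m v)) := by
        have c1 := hCb (a i k) (Wd w (Ed k v) - Ed k u)
        have c2 := hCd w hwl k v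
        rw [← sn_zero] at c2
        have c3 : sn (0 + 4) (a i k) ≤ M := (sn_mono (by omega) _).trans
          ((ha i k).trans (le_abs_self L))
        have c4 : sn 0 (Wd w (Ed k v) - Ed k u) ≤ D * sn m v :=
          c2.trans (mul_le_mul_of_nonneg_right (le_abs_self _) hs0)
        calc sn 0 (a i k * (Wd w (Ed k v) - Ed k u))
            ≤ Cb * (sn (0 + 4) (a i k) * sn 0 (Wd w (Ed k v) - Ed k u)) := c1
          _ ≤ B * (sn (0 + 4) (a i k) * sn 0 (Wd w (Ed k v) - Ed k u)) :=
              mul_le_mul_of_nonneg_right (le_abs_self _)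
                (mul_nonneg (sn_nonneg _ _) (sn_nonneg _ _))
          _ ≤ B * (M * (D * sn m v)) := by
              apply mul_le_mul_of_nonneg_left _ hB0
              exact mul_le_mul c3 c4 (sn_nonneg _ _) hM0
      have b2 : sn 0 (Wd w (a i k * Ed k v) - a i k * Wd w (Ed k v)) ≤ K * (M * sn m v) := by
        have c1 := hCc w hwl (a i k) (Ed k v)
        rw [← sn_zero] at c1
        have c3 : sn m (a i k) ≤ M := (ha i k).trans (le_abs_self L)
        have c4 : sn (m - 1) (Ed k v) ≤ sn m v := by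
          have := sn_Ed (m - 1) k v
          have e : m - 1 + 1 = m := by omega
          rwa [e] at this
        calc sn 0 (Wd w (a i k * Ed k v) - a i k * Wd w (Ed k v))
            ≤ Cc * (sn m (a i k) * sn (m - 1) (Ed k v)) := c1
          _ ≤ K * (sn m (a i k) * sn (m - 1) (Ed k v)) :=
              mul_le_mul_of_nonneg_right (le_abs_self _)
                (mul_nonneg (sn_nonneg _ _) (sn_nonneg _ _))
          _ ≤ K * (M * sn m v) := by
              apply mul_le_mul_of_nonneg_left _ hK0
              exact mul_le_mul c3 c4 (sn_nonneg _ _) hM0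
      rw [← sn_zero, e1]
      refine (sn_add_le 0 _ _).trans ?_
      have e2 : R * sn m v = 2 * (B * (M * (D * sn m v)) + K * (M * sn m v)) := by
        rw [hR]
        ring
      rw [e2]
      linarith
    -- bound for the commutator with the outer derivative
    have hKb : ∀ i, ip (Kf i) (Kf i) ≤ 12 * D * H * M * sn (m + 1) v := by
      intro i
      have c2 := hCd w hwl i (f i)
      have c3 : ∀ k, sn m (a i k * Ed k v) ≤ H * (M * sn (m + 1) v) := by
        intro k
        have d1 := hCh (a i k) (Ed k v)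
        have d2 : sn m (a i k) ≤ M := (ha i k).trans (le_abs_self L)
        have d3 := sn_Ed m k v
        calc sn m (a i k * Ed k v) ≤ Ch * (sn m (a i k) * sn m (Ed k v)) := d1
          _ ≤ H * (sn m (a i k) * sn m (Ed k v)) :=
              mul_le_mul_of_nonneg_right (le_abs_self _)
                (mul_nonneg (sn_nonneg _ _) (sn_nonneg _ _))
          _ ≤ H * (M * sn (m + 1) v) := by
              apply mul_le_mul_of_nonneg_left _ hH0
              exact mul_le_mul d2 d3 (sn_nonneg _ _) hM0
      have c4 : sn m (f i) ≤ 12 * (H * (M * sn (m + 1) v)) := by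
        have e : f i = a i 0 * Ed 0 v + a i 1 * Ed 1 v + a i 2 * Ed 2 v := by
          simp only [hf, Fin.sum_univ_three]
        rw [e]
        have d1 := sn_add_le m (a i 0 * Ed 0 v + a i 1 * Ed 1 v) (a i 2 * Ed 2 v)
        have d2 := sn_add_le m (a i 0 * Ed 0 v) (a i 1 * Ed 1 v)
        have d3 := c3 0
        have d4 := c3 1
        have d5 := c3 2
        have d6 : 0 ≤ H * (M * sn (m + 1) v) := by positivity
        linarith
      calc ip (Kf i) (Kf i) ≤ Cd * sn m (f i) := c2
        _ ≤ D * sn m (f i) := mul_le_mul_of_nonneg_right (le_abs_self _) (sn_nonneg _ _)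
        _ ≤ D * (12 * (H * (M * sn (m + 1) v))) := mul_le_mul_of_nonneg_left c4 hD0
        _ = 12 * D * H * M * sn (m + 1) v := by ring
    -- the identity
    have hid : ip u (Wd w (∑ i, Ed i (f i))) =
        -(∑ i, ∑ k, ip (Ed i u) (a i k * Ed k u)) - (∑ i, ∑ k, ip (Ed i u) (r i k)) +
          ∑ i, ip u (Kf i) := by
      rw [map_sum, map_sum]
      have e1 : ∀ i, ip u (Wd w (Ed i (f i))) =
          -(∑ k, ip (Ed i u) (a i k * Ed k u)) - (∑ k, ip (Ed i u) (r i k)) + ip u (Kf i) := by
        intro i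
        have e2 : Wd w (Ed i (f i)) = Ed i (Wd w (f i)) + Kf i := by
          simp only [hKf]
          abel
        have e3 : ip u (Ed i (Wd w (f i))) = - ip (Ed i u) (Wd w (f i)) := by
          rw [ibp]
          ring
        have e4 : Wd w (f i) = ∑ k, (a i k * Ed k u + r i k) := by
          simp only [hf, hr, map_sum]
          refine Finset.sum_congr rfl fun k _ => ?_
          abel
        rw [e2, map_add, e3, e4, map_sum]
        simp only [map_add, Finset.sum_add_distrib]
        ring
      rw [Finset.sum_congr rfl fun i _ => e1 i, Finset.sum_add_distrib, Finset.sum_sub_distrib,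
        Finset.sum_neg_distrib]
    -- ellipticity
    have hel : lam * ∑ i, ip (Ed i u) (Ed i u) ≤ ∑ i, ∑ k, ip (Ed i u) (a i k * Ed k u) := by
      have e1 : lam * ∑ i, ip (Ed i u) (Ed i u) = ip 1 (lam • ∑ i, Ed i u * Ed i u) := by
        rw [map_smul, smul_eq_mul, map_sum]
        congr 1
        exact Finset.sum_congr rfl fun i _ => ip_eq_one _ _
      have e2 : ∑ i, ∑ k, ip (Ed i u) (a i k * Ed k u) =
          ip 1 (∑ i, ∑ k, Ed i u * (a i k * Ed k u)) := by
        rw [map_sum]
        refine Finset.sum_congr rfl fun i _ => ?_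
        rw [map_sum]
        exact Finset.sum_congr rfl fun k _ => ip_eq_one _ _
      rw [e1, e2]
      refine ip_one_mono fun x hx => ?_
      have h6 := hell x hx (fun i => (Ed i u).1 x)
      have e3 : (lam • ∑ i, Ed i u * Ed i u : XS).1 x = lam * ∑ i, (Ed i u).1 x ^ 2 := by
        simp only [Fin.sum_univ_three]
        change lam * ((Ed 0 u).1 x * (Ed 0 u).1 x + (Ed 1 u).1 x * (Ed 1 u).1 x +
          (Ed 2 u).1 x * (Ed 2 u).1 x) = _
        ring
      have e4 : (∑ i, ∑ k, Ed i u * (a i k * Ed k u) : XS).1 x =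
          ∑ i, ∑ k, (a i k).1 x * (Ed i u).1 x * (Ed k u).1 x := by
        simp only [Fin.sum_univ_three]
        change ((Ed 0 u).1 x * ((a 0 0).1 x * (Ed 0 u).1 x) +
            (Ed 0 u).1 x * ((a 0 1).1 x * (Ed 1 u).1 x) +
            (Ed 0 u).1 x * ((a 0 2).1 x * (Ed 2 u).1 x)) +
          ((Ed 1 u).1 x * ((a 1 0).1 x * (Ed 0 u).1 x) +
            (Ed 1 u).1 x * ((a 1 1).1 x * (Ed 1 u).1 x) +
            (Ed 1 u).1 x * ((a 1 2).1 x * (Ed 2 u).1 x)) +
          ((Ed 2 u).1 x * ((a 2 0).1 x * (Ed 0 u).1 x) +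
            (Ed 2 u).1 x * ((a 2 1).1 x * (Ed 1 u).1 x) +
            (Ed 2 u).1 x * ((a 2 2).1 x * (Ed 2 u).1 x)) = _
        ring
      rw [e3, e4]
      exact h6
    -- the remainder terms
    have hrem : -(∑ i, ∑ k, ip (Ed i u) (r i k)) ≤
        lam / 4 * (∑ i, ip (Ed i u) (Ed i u)) + 27 / lam * (R * sn m v) := by
      have e1 : ∀ i k, -(ip (Ed i u) (r i k)) ≤
          lam / 12 * ip (Ed i u) (Ed i u) + 3 / lam * (R * sn m v) := by
        intro i k
        have y1 := young (lam / 6) (by positivity) (Ed i u) (r i k)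
        have y2 := neg_abs_le (ip (Ed i u) (r i k))
        have y3 : 1 / (2 * (lam / 6)) = 3 / lam := by
          field_simp
          norm_num
        have y4 : lam / 6 / 2 = lam / 12 := by ring
        rw [y3, y4] at y1
        have y5 := mul_le_mul_of_nonneg_left (hrb i k) (by positivity : 0 ≤ 3 / lam)
        linarith
      calc -(∑ i, ∑ k, ip (Ed i u) (r i k)) = ∑ i, ∑ k, -(ip (Ed i u) (r i k)) := by
            simp only [Finset.sum_neg_distrib]
        _ ≤ ∑ i : Fin 3, ∑ k : Fin 3,
              (lam / 12 * ip (Ed i u) (Ed i u) + 3 / lam * (R * sn m v)) :=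
            Finset.sum_le_sum fun i _ => Finset.sum_le_sum fun k _ => e1 i k
        _ = _ := by
            simp only [Fin.sum_univ_three]
            ring
    have hK3 : ∑ i, ip u (Kf i) ≤
        3 / (2 * t) * ip u u + t / 2 * (36 * D * H * M * sn (m + 1) v) := by
      have e1 : ∀ i, ip u (Kf i) ≤ 1 / (2 * t) * ip u u + t / 2 * (12 * D * H * M * sn (m + 1) v) := by
        intro i
        have y1 := young t ht0 (Kf i) u
        rw [ip_comm (Kf i) u] at y1
        have y2 := le_abs_self (ip u (Kf i))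
        have y5 := mul_le_mul_of_nonneg_left (hKb i) (by positivity : 0 ≤ t / 2)
        linarith
      calc ∑ i, ip u (Kf i) ≤ ∑ i : Fin 3,
            (1 / (2 * t) * ip u u + t / 2 * (12 * D * H * M * sn (m + 1) v)) :=
            Finset.sum_le_sum fun i _ => e1 i
        _ = _ := by
            simp only [Fin.sum_univ_three]
            ring
    rw [hid]
    linarith
  -- summation
  rw [bf_apply]
  refine (Finset.sum_le_sum key).trans ?_
  have hsum := sn_succ m v
  set S := ∑ w ∈ Wle m, ∑ i, ip (Ed i (Wd w v)) (Ed i (Wd w v)) with hS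
  have e1 : ∑ w ∈ Wle m, (-(3 * lam / 4) * (∑ i, ip (Ed i (Wd w v)) (Ed i (Wd w v))) +
      27 / lam * (R * sn m v) + 3 / (2 * t) * ip (Wd w v) (Wd w v) +
        t / 2 * (36 * D * H * M * sn (m + 1) v)) =
      -(3 * lam / 4) * S + Nw * (27 / lam * (R * sn m v)) + 3 / (2 * t) * sn m v +
        Nw * (t / 2 * (36 * D * H * M * sn (m + 1) v)) := by
    have p1 : ∑ w ∈ Wle m, -(3 * lam / 4) * (∑ i, ip (Ed i (Wd w v)) (Ed i (Wd w v))) =
        -(3 * lam / 4) * S := (Finset.mul_sum _ _ _).symm
    have p2 : ∑ w ∈ Wle m, 27 / lam * (R * sn m v) = Nw * (27 / lam * (R * sn m v)) := by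
      rw [Finset.sum_const, nsmul_eq_mul]
    have p3 : ∑ w ∈ Wle m, 3 / (2 * t) * ip (Wd w v) (Wd w v) = 3 / (2 * t) * sn m v := by
      rw [← Finset.mul_sum, ← sn_eq]
    have p4 : ∑ w ∈ Wle m, t / 2 * (36 * D * H * M * sn (m + 1) v) =
        Nw * (t / 2 * (36 * D * H * M * sn (m + 1) v)) := by
      rw [Finset.sum_const, nsmul_eq_mul]
    rw [Finset.sum_add_distrib, Finset.sum_add_distrib, Finset.sum_add_distrib, p1, p2, p3, p4]
  rw [e1]
  have e2 : sn (m + 1) v - sn m v ≤ S := by
    have := ip_self_le_sn m v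
    linarith
  have e3 : Nw * (t / 2 * (36 * D * H * M * sn (m + 1) v)) ≤ lam / 4 * sn (m + 1) v := by
    have e4 : Nw * (t / 2 * (36 * D * H * M * sn (m + 1) v)) =
        t * (18 * Nw * D * H * M) * sn (m + 1) v := by ring
    have e5 : t * (18 * Nw * D * H * M) ≤ lam / 4 := by
      have e6 : t * Q = lam / 4 := by
        rw [ht]
        field_simp
      have e7 : 18 * Nw * D * H * M ≤ Q := by linarith
      calc t * (18 * Nw * D * H * M) ≤ t * Q := mul_le_mul_of_nonneg_left e7 ht0.le
        _ = lam / 4 := e6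
    rw [e4]
    exact mul_le_mul_of_nonneg_right e5 hs1
  have e8 : -(3 * lam / 4) * S ≤ -(3 * lam / 4) * (sn (m + 1) v - sn m v) := by
    have : 0 ≤ 3 * lam / 4 := by positivity
    nlinarith
  have e9 : C * sn m v = 3 * lam / 4 * sn m v + Nw * (27 / lam * (R * sn m v)) +
      3 / (2 * t) * sn m v := by
    rw [hC]
    ring
  rw [e9]
  linarith

end Pool.Agent.Helper57.RS
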